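import Pool.Agent.TH188.RL.A3

/-!
MP_f1fec5_al: regular ideal lattices that are ideal lattices of domains.

Let `R` be an uncountable ring whose zero divisors form a finite union of primes `P` such that
`R / P` has the cardinality of `R`, and in which every nonzero integer is regular. Then `R` contains
a domain `D` such that `J ↦ J ∩ D` is an isomorphism of the multiplicative lattice of the regular
ideals of `R` (and zero) onto the lattice of all ideals of `D`. No condition on the regular ideals is
needed; in particular `R` need not be a Prüfer ring.

For example, the hypotheses hold for all noetherian local rings which are complete, of depth at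
least one, and in which the nonzero integers are regular, and for all noetherian algebras over an
uncountable field which have the cardinality of that field.
-/

set_option autoImplicit false

universe u

namespace Pool.Agent.Results.MP_f1fec5_al.FewZeroDivisors

open Cardinal Pool.Agent.TH188.RL

/-- The ideal is zero or regular, that is, it contains an element which is not a zero divisor. -/
def IsZeroOrRegular {R : Type u} [CommRing R] (J : Ideal R) : Prop :=
  J = ⊥ ∨ ∃ x ∈ J, x ∈ nonZeroDivisors R

/-- The lattice `L_r(R)` of the regular ideals and zero, ordered by inclusion. -/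
abbrev RegularIdealLattice (R : Type u) [CommRing R] : Type u :=
  {J : Ideal R // IsZeroOrRegular J}

/-- The product of ideals in `L_r(R)`. -/
def product {R : Type u} [CommRing R] (I J : RegularIdealLattice R) : RegularIdealLattice R :=
  ⟨I.1 * J.1, by
    rcases I.2 with hI | ⟨x, hx, hxr⟩
    · exact Or.inl (by rw [hI, Ideal.bot_mul])
    · rcases J.2 with hJ | ⟨y, hy, hyr⟩
      · exact Or.inl (by rw [hJ, Ideal.mul_bot])
      · exact Or.inr ⟨x * y, Ideal.mul_mem_mul hx hy, mul_mem hxr hyr⟩⟩

/-- Let `R` be a nonzero commutative ring and `Ps` a finite set of prime ideals of `R` whose union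
is the set of zero divisors of `R`. Suppose that `R` is uncountable, that `R / P` has the same
cardinality as `R` for all `P` in `Ps`, and that every integer is regular or zero in `R`. Then `R` has
a subring `D` which is a domain and for which `J ↦ J ∩ D` is an isomorphism of multiplicative
lattices from `L_r(R)` onto the lattice of ideals of `D`. -/
theorem result (R : Type u) [CommRing R] [Nontrivial R] (Ps : Finset (Ideal R))
    (hPs : ∀ P ∈ Ps, P.IsPrime)
    (hZ : ∀ x : R, x ∉ nonZeroDivisors R ↔ ∃ P ∈ Ps, x ∈ P)
    (huncountable : ℵ₀ < #R) (hcard : ∀ P ∈ Ps, #(R ⧸ P) = #R)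
    (hint : ∀ m : ℤ, (m : R) ∈ nonZeroDivisors R ∨ (m : R) = 0) :
    ∃ D : Subring R, IsDomain D ∧ ∃ e : RegularIdealLattice R ≃o Ideal D,
      (∀ J, e J = J.1.comap D.subtype) ∧ ∀ I J, e (product I J) = e I * e J := by
  obtain ⟨D, hD⟩ := exists_cond hPs hZ huncountable hcard fun m hm => (hint m).resolve_left hm
  have hmap : ∀ I : Ideal D, IsZeroOrRegular (I.map D.subtype) := by
    intro I
    by_cases hI : I = ⊥
    · left
      rw [hI, Ideal.map_bot]
    · right
      obtain ⟨d, hdI, hd0⟩ := Submodule.exists_mem_ne_zero_of_ne_bot hI
      exact ⟨d, Ideal.mem_map_of_mem D.subtype hdI, hD.reg _ d.2 fun h => hd0 (Subtype.ext h)⟩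
  let e : RegularIdealLattice R ≃o Ideal D :=
    { toFun := fun J => J.1.comap D.subtype
      invFun := fun I => ⟨I.map D.subtype, hmap I⟩
      left_inv := fun J => Subtype.ext (hD.map_comap J.2)
      right_inv := fun I => hD.comap_map I
      map_rel_iff' := by
        intro I J
        constructor
        · intro hIJ
          have h1 : I.1.comap D.subtype ≤ J.1.comap D.subtype := hIJ
          change I.1 ≤ J.1
          rw [← hD.map_comap I.2, ← hD.map_comap J.2]
          exact Ideal.map_mono h1
        · intro hIJ
          exact Ideal.comap_mono hIJ }
  refine ⟨D, hD.isDomain, e, fun J => rfl, fun I J => ?_⟩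
  change (I.1 * J.1).comap D.subtype = I.1.comap D.subtype * J.1.comap D.subtype
  rw [← hD.comap_map (I.1.comap D.subtype * J.1.comap D.subtype), Ideal.map_mul,
    hD.map_comap I.2, hD.map_comap J.2]

end Pool.Agent.Results.MP_f1fec5_al.FewZeroDivisors
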